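import Mathlib

/-!
# For every `t ≥ 1` there is a `t`-class `12 t`-component tiling

The plane is written in the coordinates `x 0 + x 1 + x 2 = 0` in which the hexagonal lattice consists
of the integer points and the twelve isometries fixing the origin are the permutations of the
coordinates with a common sign.  The alcove `x 0 ≤ x 1 ≤ 0`, `x 2 - x 0 ≤ 1` of the group `p6m` is cut
by the lines `x 2 - x 0 = j / t` in `t` convex pieces of distinct diameters.  Piece number `j` is moved
by the lattice vector `(j + 1) (-2, -1, 3)` and its twelve images about the origin are taken; these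
`12 t` disjoint pieces form the tile, and its lattice translates form the tiling.
-/

set_option autoImplicit false

namespace Pool.Agent.Results.MP_2d2d9d_co.TwelveT

/-- The Euclidean plane. -/
abbrev Plane : Type := EuclideanSpace ℝ (Fin 2)

/-- A countable family of closed sets covering the plane with pairwise disjoint interiors. -/
structure IsTiling (F : Set (Set Plane)) : Prop where
  countable : F.Countable
  closed : ∀ t ∈ F, IsClosed t
  cover : ⋃₀ F = Set.univ
  disjoint : ∀ t ∈ F, ∀ t' ∈ F, t ≠ t' → Disjoint (interior t) (interior t')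

/-- The isometry `g` of the plane maps the tiling `F` onto itself. -/
def IsSymmetry (F : Set (Set Plane)) (g : Plane ≃ᵢ Plane) : Prop :=
  (fun t => g '' t) '' F = F

/-- The symmetry group of `F` acts transitively on the tiles. -/
def Isohedral (F : Set (Set Plane)) : Prop :=
  ∀ t ∈ F, ∀ t' ∈ F, ∃ g, IsSymmetry F g ∧ g '' t = t'

/-- A closed topological disk: a set homeomorphic to the closed unit ball of the plane. -/
def IsClosedDisk (t : Set Plane) : Prop :=
  Nonempty (t ≃ₜ Metric.closedBall (0 : Plane) 1)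

/-- Some element of the induced tile group of the tile `T` (the symmetries of `F` mapping `T` onto
itself) maps `C` onto `D`. -/
def Equivalent (F : Set (Set Plane)) (T C D : Set Plane) : Prop :=
  ∃ g, IsSymmetry F g ∧ g '' T = T ∧ g '' C = D

/-- `F` is a `t`-class `k`-component tiling: an isohedral tiling in which each tile `T` is the union
of `k` pairwise disjoint closed topological disks `C i`, which fall in exactly `t` classes (the values
of the surjection `c` onto `Fin t`) under the induced tile group. -/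
def ClassTiling (t k : ℕ) (F : Set (Set Plane)) : Prop :=
  IsTiling F ∧ Isohedral F ∧ ∀ T ∈ F, ∃ C : Fin k → Set Plane,
    (∀ i, IsClosedDisk (C i)) ∧ (∀ i j, i ≠ j → Disjoint (C i) (C j)) ∧ (⋃ i, C i) = T ∧
    ∃ c : Fin k → Fin t, Function.Surjective c ∧
      ∀ i j, c i = c j ↔ Equivalent F T (C i) (C j)

/-! ### Coordinates -/

/-- The point with coordinates `(u, v)`. -/
noncomputable def pt (u v : ℝ) : Plane := !₂[u, v]

@[simp] theorem pt_zero (u v : ℝ) : pt u v 0 = u := by simp [pt]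
@[simp] theorem pt_one (u v : ℝ) : pt u v 1 = v := by simp [pt]

theorem ext2 {z w : Plane} (h0 : z 0 = w 0) (h1 : z 1 = w 1) : z = w := by
  ext i
  fin_cases i
  · exact h0
  · exact h1

theorem dist_sq (z w : Plane) : dist z w ^ 2 = (z 0 - w 0) ^ 2 + (z 1 - w 1) ^ 2 := by
  rw [EuclideanSpace.dist_eq, Real.sq_sqrt (by positivity)]
  simp [Real.dist_eq]

/-- coefficients of the first coordinate -/
noncomputable def al : Fin 3 → ℝ := ![-1 / 2, 0, 1 / 2]

/-- coefficients of the second coordinate -/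
noncomputable def be : Fin 3 → ℝ := ![1 / (2 * √3), -1 / √3, 1 / (2 * √3)]

/-- The three coordinates with sum zero. -/
noncomputable def X (z : Plane) : Fin 3 → ℝ := fun i => al i * z 0 + be i * z 1

/-- The point with three given coordinates. -/
noncomputable def Y (x : Fin 3 → ℝ) : Plane := pt (x 2 - x 0) (-(√3 * x 1))

theorem X0 (z : Plane) : X z 0 = -1 / 2 * z 0 + 1 / (2 * √3) * z 1 := rfl
theorem X1 (z : Plane) : X z 1 = 0 * z 0 + -1 / √3 * z 1 := rfl
theorem X2 (z : Plane) : X z 2 = 1 / 2 * z 0 + 1 / (2 * √3) * z 1 := rfl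

theorem s3 : √3 ≠ (0 : ℝ) := by positivity

theorem s3sq : √3 ^ 2 = (3 : ℝ) := Real.sq_sqrt (by norm_num)

theorem X_sum (z : Plane) : X z 0 + X z 1 + X z 2 = 0 := by
  rw [X0, X1, X2]
  have := s3
  field_simp
  ring

theorem Y_X (z : Plane) : Y (X z) = z := by
  have h := s3
  apply ext2
  · rw [Y, pt_zero, X0, X2]; ring
  · rw [Y, pt_one, X1]
    field_simp
    ring

theorem X_Y (x : Fin 3 → ℝ) (h : x 0 + x 1 + x 2 = 0) : X (Y x) = x := by
  have hs := s3
  have h2 : x 1 = - x 0 - x 2 := by linarith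
  funext i
  fin_cases i
  · change X (Y x) 0 = x 0
    rw [X0, Y, pt_zero, pt_one]
    field_simp
    rw [h2]; ring
  · change X (Y x) 1 = x 1
    rw [X1, Y, pt_zero, pt_one]
    field_simp
    ring
  · change X (Y x) 2 = x 2
    rw [X2, Y, pt_zero, pt_one]
    field_simp
    rw [h2]; ring

theorem X_inj {z w : Plane} (h : X z = X w) : z = w := by
  rw [← Y_X z, h, Y_X]

theorem dist_X (z w : Plane) : dist z w ^ 2 = 2 * ∑ i, (X z i - X w i) ^ 2 := by
  have hs := s3
  rw [dist_sq, Fin.sum_univ_three, X0, X1, X2, X0, X1, X2]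
  field_simp
  ring_nf
  rw [s3sq]
  ring

/-- distance in terms of `x 2 - x 0` and `x 1` -/
theorem dist_ab (z w : Plane) : dist z w ^ 2 =
    ((X z 2 - X z 0) - (X w 2 - X w 0)) ^ 2 + 3 * (X z 1 - X w 1) ^ 2 := by
  have h1 := X_sum z
  have h2 := X_sum w
  rw [dist_X, Fin.sum_univ_three]
  have e1 : X z 1 = - X z 0 - X z 2 := by linarith
  have e2 : X w 1 = - X w 0 - X w 2 := by linarith
  rw [e1, e2]; ring

theorem continuous_X (i : Fin 3) : Continuous fun z : Plane => X z i := by
  unfold X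
  fun_prop

/-! ### The twelve linear isometries -/

/-- Index type of the twelve isometries fixing the origin. -/
abbrev D : Type := Equiv.Perm (Fin 3) × Bool

/-- sign -/
def sg (b : Bool) : ℤ := if b then -1 else 1

theorem sg_sq (b : Bool) : sg b * sg b = 1 := by cases b <;> simp [sg]

/-- The action on real vectors. -/
def act (p : D) (x : Fin 3 → ℝ) : Fin 3 → ℝ := fun i => (sg p.2 : ℝ) * x (p.1 i)

/-- The inverse element. -/
def inv (p : D) : D := (p.1⁻¹, p.2)

/-- The product of two elements. -/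
def mul (p q : D) : D := (q.1 * p.1, xor p.2 q.2)

theorem act_act (p q : D) (x : Fin 3 → ℝ) : act p (act q x) = act (mul p q) x := by
  obtain ⟨σ, b⟩ := p
  obtain ⟨τ, c⟩ := q
  funext i
  cases b <;> cases c <;> simp [act, mul, sg]

theorem inv_act (p : D) (x : Fin 3 → ℝ) : act (inv p) (act p x) = x := by
  obtain ⟨σ, b⟩ := p
  funext i
  cases b <;> simp [act, inv, sg]

theorem act_inv (p : D) (x : Fin 3 → ℝ) : act p (act (inv p) x) = x := by
  obtain ⟨σ, b⟩ := p
  funext i
  cases b <;> simp [act, inv, sg]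

theorem act_add (p : D) (x x' : Fin 3 → ℝ) : act p (x + x') = act p x + act p x' := by
  funext i
  simp only [act, Pi.add_apply]
  ring

theorem act_sub (p : D) (x x' : Fin 3 → ℝ) : act p (x - x') = act p x - act p x' := by
  funext i
  simp only [act, Pi.sub_apply]
  ring

theorem act_sum (p : D) (x : Fin 3 → ℝ) (h : x 0 + x 1 + x 2 = 0) :
    act p x 0 + act p x 1 + act p x 2 = 0 := by
  have h1 : ∑ i, x (p.1 i) = ∑ i, x i := Equiv.sum_comp p.1 x
  rw [Fin.sum_univ_three, Fin.sum_univ_three, h] at h1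
  simp only [act]
  linear_combination (sg p.2 : ℝ) * h1

theorem mul_inv_mul (p q : D) : mul (mul p (inv q)) q = p := by
  obtain ⟨σ, b⟩ := p
  obtain ⟨τ, c⟩ := q
  simp only [mul, inv]
  refine Prod.ext ?_ ?_
  · simp
  · cases b <;> cases c <;> rfl

theorem mul_inv_mul' (p q : D) : mul q (mul (inv q) p) = p := by
  obtain ⟨σ, b⟩ := p
  obtain ⟨τ, c⟩ := q
  simp only [mul, inv]
  refine Prod.ext ?_ ?_
  · simp
  · cases b <;> cases c <;> rfl

/-- vectors with sum zero -/
def Z (u : Fin 3 → ℝ) : Prop := u 0 + u 1 + u 2 = 0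

theorem Z_sub {u v : Fin 3 → ℝ} (hu : Z u) (hv : Z v) : Z (u - v) := by
  unfold Z at *
  simp only [Pi.sub_apply]
  linarith

theorem Z_add {u v : Fin 3 → ℝ} (hu : Z u) (hv : Z v) : Z (u + v) := by
  unfold Z at *
  simp only [Pi.add_apply]
  linarith

theorem Z_act (p : D) {u : Fin 3 → ℝ} (hu : Z u) : Z (act p u) := act_sum p u hu

/-- The isometry `x ↦ p (x - u) + v`. -/
noncomputable def mov (p : D) (u v : Fin 3 → ℝ) (hu : Z u) (hv : Z v) : Plane ≃ᵢ Plane :=
  IsometryEquiv.mk' (fun z => Y (act p (X z - u) + v)) (fun z => Y (act (inv p) (X z - v) + u))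
    (by
      intro z
      apply X_inj
      rw [X_Y _ (Z_add (Z_act _ (Z_sub (X_sum _) hu)) hv),
        X_Y _ (Z_add (Z_act _ (Z_sub (X_sum _) hv)) hu), add_sub_cancel_right, act_inv,
        sub_add_cancel])
    (by
      apply Isometry.of_dist_eq
      intro z w
      apply (pow_left_inj₀ dist_nonneg dist_nonneg two_ne_zero).1
      rw [dist_X, dist_X, X_Y _ (Z_add (Z_act _ (Z_sub (X_sum _) hu)) hv),
        X_Y _ (Z_add (Z_act _ (Z_sub (X_sum _) hu)) hv)]
      congr 1
      have h1 : ∑ i, (X z (p.1 i) - X w (p.1 i)) ^ 2 = ∑ i, (X z i - X w i) ^ 2 :=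
        Equiv.sum_comp p.1 (fun i => (X z i - X w i) ^ 2)
      rw [← h1]
      apply Finset.sum_congr rfl
      intro i _
      have h2 : (sg p.2 : ℝ) * sg p.2 = 1 := by exact_mod_cast sg_sq p.2
      simp only [act, Pi.add_apply, Pi.sub_apply]
      linear_combination (X z (p.1 i) - X w (p.1 i)) ^ 2 * h2)

theorem X_mov (p : D) (u v : Fin 3 → ℝ) (hu : Z u) (hv : Z v) (z : Plane) :
    X (mov p u v hu hv z) = act p (X z - u) + v :=
  X_Y _ (Z_add (Z_act _ (Z_sub (X_sum _) hu)) hv)

/-! ### Chambers -/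

/-- Only one element moves a point to the open chamber. -/
theorem chamber_unique {x : Fin 3 → ℝ} {p p' : D}
    (h0 : act p x 0 < act p x 1) (h1 : act p x 1 < 0) (h2 : 0 < act p x 2)
    (h0' : act p' x 0 < act p' x 1) (h1' : act p' x 1 < 0) (h2' : 0 < act p' x 2) : p = p' := by
  obtain ⟨σ, b⟩ := p
  obtain ⟨σ', b'⟩ := p'
  obtain ⟨τ, rfl⟩ : ∃ τ : Equiv.Perm (Fin 3), σ' = σ * τ := ⟨σ⁻¹ * σ', by simp⟩
  set w : Fin 3 → ℝ := act (σ, b) x with hw
  have hneg : ∀ k, 0 < w k → k = 2 := by
    intro k hk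
    fin_cases k
    · exfalso; change 0 < w 0 at hk; linarith
    · exfalso; change 0 < w 1 at hk; linarith
    · rfl
  have hpos : ∀ k, w k < 0 → k ≠ 2 := by
    rintro k hk rfl
    linarith
  have n01 : τ 0 ≠ τ 1 := fun e => absurd (τ.injective e) (by decide)
  by_cases hb : b = b'
  · subst hb
    have e : ∀ k, act (σ * τ, b) x k = w (τ k) := fun k => rfl
    rw [e, e] at h0'
    rw [e] at h1' h2'
    have t2 : τ 2 = 2 := hneg _ h2'
    have t1 : τ 1 ≠ 2 := hpos _ h1'
    have t0 : τ 0 ≠ 2 := hpos _ (by linarith)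
    have t0' : τ 0 = 0 := by
      by_contra hne
      have h3 : τ 0 = 1 := by
        generalize τ 0 = a at *
        fin_cases a
        · exact absurd rfl hne
        · rfl
        · exact absurd rfl t0
      have h4 : τ 1 = 0 := by
        generalize τ 1 = a at *
        fin_cases a
        · rfl
        · exact absurd h3 n01
        · exact absurd rfl t1
      rw [h3, h4] at h0'
      linarith
    have t1' : τ 1 = 1 := by
      generalize τ 1 = a at *
      fin_cases a
      · exact absurd t0' n01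
      · rfl
      · exact absurd rfl t1
    have hτ : τ = 1 := by
      ext k
      fin_cases k
      · change ((τ 0 : Fin 3) : ℕ) = 0; rw [t0']; rfl
      · change ((τ 1 : Fin 3) : ℕ) = 1; rw [t1']; rfl
      · change ((τ 2 : Fin 3) : ℕ) = 2; rw [t2]; rfl
    rw [hτ, mul_one]
  · exfalso
    have e : ∀ k, act (σ * τ, b') x k = - w (τ k) := by
      intro k
      rw [hw]
      cases b <;> cases b' <;> simp [act, sg] at hb ⊢
    rw [e, e] at h0'
    rw [e] at h1'
    have t1 : τ 1 = 2 := hneg _ (by linarith)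
    have t0 : τ 0 = 2 := hneg _ (by linarith)
    exact n01 (t0.trans t1.symm)

/-- Every point is moved to the closed chamber by some element. -/
theorem chamber_exists (x : Fin 3 → ℝ) : ∃ p : D, act p x 0 ≤ act p x 1 ∧ act p x 1 ≤ 0 := by
  have hm : Monotone (x ∘ Tuple.sort x) := Tuple.monotone_sort x
  have h01 : x (Tuple.sort x 0) ≤ x (Tuple.sort x 1) := hm (by decide)
  have h12 : x (Tuple.sort x 1) ≤ x (Tuple.sort x 2) := hm (by decide)
  rcases le_total (x (Tuple.sort x 1)) 0 with h | h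
  · refine ⟨(Tuple.sort x, false), ?_, ?_⟩
    · simpa [act, sg] using h01
    · simpa [act, sg] using h
  · refine ⟨(Tuple.sort x * Fin.revPerm, true), ?_, ?_⟩
    · have e0 : Fin.revPerm (0 : Fin 3) = 2 := by decide
      have e1 : Fin.revPerm (1 : Fin 3) = 1 := by decide
      simp only [act, sg, Equiv.Perm.mul_apply, e0, e1]
      simpa using h12
    · have e1 : Fin.revPerm (1 : Fin 3) = 1 := by decide
      simp only [act, sg, Equiv.Perm.mul_apply, e1]
      simpa using h

/-! ### The lattice -/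

/-- The hexagonal lattice. -/
abbrev L : Type := {m : Fin 3 → ℤ // m 0 + m 1 + m 2 = 0}

/-- real vector of a lattice point -/
def R (m : L) : Fin 3 → ℝ := fun i => (m.1 i : ℝ)

theorem Z_R (m : L) : Z (R m) := by
  have := m.2
  unfold Z R
  exact_mod_cast this

theorem R_inj {m n : L} (h : R m = R n) : m = n := by
  apply Subtype.ext
  funext i
  have := congrFun h i
  unfold R at this
  exact_mod_cast this

/-- action on the lattice -/
def actL (p : D) (m : L) : L := ⟨fun i => sg p.2 * m.1 (p.1 i), by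
  have h1 : ∑ i, m.1 (p.1 i) = ∑ i, m.1 i := Equiv.sum_comp p.1 m.1
  rw [Fin.sum_univ_three, Fin.sum_univ_three, m.2] at h1
  linear_combination sg p.2 * h1⟩

theorem R_actL (p : D) (m : L) : R (actL p m) = act p (R m) := by
  funext i
  simp [R, actL, act]

/-- sum of lattice points -/
def addL (m n : L) : L := ⟨m.1 + n.1, by
  have h1 := m.2
  have h2 := n.2
  simp only [Pi.add_apply]
  linarith⟩

/-- difference of lattice points -/
def subL (m n : L) : L := ⟨m.1 - n.1, by
  have h1 := m.2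
  have h2 := n.2
  simp only [Pi.sub_apply]
  linarith⟩

theorem R_addL (m n : L) : R (addL m n) = R m + R n := by
  funext i
  simp [R, addL]

theorem R_subL (m n : L) : R (subL m n) = R m - R n := by
  funext i
  simp [R, subL]

/-- Reduction to the Voronoi cell. -/
theorem voronoi (x : Fin 3 → ℝ) (hx : Z x) : ∃ m : L, ∀ i j, (x - R m) i - (x - R m) j ≤ 1 := by
  have hf : ∀ i, 0 ≤ Int.fract (x i) := fun i => Int.fract_nonneg _
  have hf1 : ∀ i, Int.fract (x i) < 1 := fun i => Int.fract_lt_one _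
  have hfl : ∀ i, x i = ⌊x i⌋ + Int.fract (x i) := fun i => (Int.floor_add_fract _).symm
  have hsum : Int.fract (x 0) + Int.fract (x 1) + Int.fract (x 2) =
      ((-(⌊x 0⌋ + ⌊x 1⌋ + ⌊x 2⌋) : ℤ) : ℝ) := by
    have h0 := hfl 0
    have h1 := hfl 1
    have h2 := hfl 2
    unfold Z at hx
    push_cast
    linarith
  have hN0 : 0 ≤ -(⌊x 0⌋ + ⌊x 1⌋ + ⌊x 2⌋) := by
    have : (0 : ℝ) ≤ ((-(⌊x 0⌋ + ⌊x 1⌋ + ⌊x 2⌋) : ℤ) : ℝ) := by
      rw [← hsum]
      have := hf 0
      have := hf 1
      have := hf 2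
      linarith
    exact_mod_cast this
  have hN3 : -(⌊x 0⌋ + ⌊x 1⌋ + ⌊x 2⌋) < 3 := by
    have : ((-(⌊x 0⌋ + ⌊x 1⌋ + ⌊x 2⌋) : ℤ) : ℝ) < 3 := by
      rw [← hsum]
      have := hf1 0
      have := hf1 1
      have := hf1 2
      linarith
    exact_mod_cast this
  have hcase : -(⌊x 0⌋ + ⌊x 1⌋ + ⌊x 2⌋) = 0 ∨ -(⌊x 0⌋ + ⌊x 1⌋ + ⌊x 2⌋) = 1 ∨
      -(⌊x 0⌋ + ⌊x 1⌋ + ⌊x 2⌋) = 2 := by omega
  rcases hcase with hN | hN | hN
  · refine ⟨⟨fun i => ⌊x i⌋, by linarith⟩, ?_⟩
    intro i j
    have e : ∀ k, (x - R ⟨fun i => ⌊x i⌋, by linarith⟩) k = Int.fract (x k) := by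
      intro k
      simp only [Pi.sub_apply, R, Int.fract]
    rw [e, e]
    have := hf j
    have := hf1 i
    linarith
  · obtain ⟨k, -, hk⟩ := Finset.exists_max_image (Finset.univ : Finset (Fin 3))
      (fun i => Int.fract (x i)) ⟨0, Finset.mem_univ _⟩
    refine ⟨⟨fun i => ⌊x i⌋ + if i = k then 1 else 0, ?_⟩, ?_⟩
    · fin_cases k <;> simp <;> linarith
    · intro i j
      have hi := hk i (Finset.mem_univ _)
      have hj := hk j (Finset.mem_univ _)
      have a1 := hf i
      have a2 := hf1 i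
      have a3 := hf j
      have a4 := hf1 j
      have a5 := hf k
      have a6 := hf1 k
      have b1 := hfl i
      have b2 := hfl j
      simp only [Pi.sub_apply, R]
      push_cast
      split_ifs with c1 c2 c2
      · linarith
      · subst c1; linarith
      · subst c2; linarith
      · linarith
  · obtain ⟨k, -, hk⟩ := Finset.exists_min_image (Finset.univ : Finset (Fin 3))
      (fun i => Int.fract (x i)) ⟨0, Finset.mem_univ _⟩
    refine ⟨⟨fun i => ⌊x i⌋ + if i = k then 0 else 1, ?_⟩, ?_⟩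
    · fin_cases k <;> simp <;> linarith
    · intro i j
      have hi := hk i (Finset.mem_univ _)
      have hj := hk j (Finset.mem_univ _)
      have a1 := hf i
      have a2 := hf1 i
      have a3 := hf j
      have a4 := hf1 j
      have a5 := hf k
      have a6 := hf1 k
      have b1 := hfl i
      have b2 := hfl j
      simp only [Pi.sub_apply, R]
      push_cast
      split_ifs with c1 c2 c2
      · linarith
      · subst c1; linarith
      · subst c2; linarith
      · linarith

/-! ### The pieces -/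

/-- Piece number `j` of the alcove, in the three coordinates. -/
def Bx (t j : ℕ) : Set (Fin 3 → ℝ) :=
  {x | x 0 ≤ x 1 ∧ x 1 ≤ 0 ∧ (j : ℝ) ≤ t * (x 2 - x 0) ∧ t * (x 2 - x 0) ≤ j + 1}

/-- The displacement of piece number `j`. -/
def lam (j : ℕ) : L := ⟨![-2 * (j + 1), -(j + 1), 3 * (j + 1)], by simp; ring⟩

theorem lam0 (j : ℕ) : R (lam j) 0 = -2 * (j + 1) := by simp [R, lam]
theorem lam1 (j : ℕ) : R (lam j) 1 = -(j + 1) := by simp [R, lam]
theorem lam2 (j : ℕ) : R (lam j) 2 = 3 * (j + 1) := by simp [R, lam]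

/-- The component `(p, j)` of the tile number `m`. -/
def comp (t : ℕ) (m : L) (p : D) (j : ℕ) : Set Plane :=
  {z | act p (X z - R m) - R (lam j) ∈ Bx t j}

/-- The base piece. -/
def base (t j : ℕ) : Set Plane := {z | X z ∈ Bx t j}

theorem Z_neg_R (m : L) : Z (-R m) := by
  have := Z_R m
  unfold Z at *
  simp only [Pi.neg_apply]
  linarith

/-- The isometry carrying a component to the base piece. -/
noncomputable def toBase (m : L) (p : D) (j : ℕ) : Plane ≃ᵢ Plane :=
  mov p (R m) (-R (lam j)) (Z_R m) (Z_neg_R _)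

theorem comp_eq (t : ℕ) (m : L) (p : D) (j : ℕ) :
    comp t m p j = (toBase m p j) ⁻¹' base t j := by
  ext z
  change _ ∈ Bx t j ↔ X (toBase m p j z) ∈ Bx t j
  rw [toBase, X_mov, sub_eq_add_neg (act p (X z - R m))]

theorem toBase_image (t : ℕ) (m : L) (p : D) (j : ℕ) :
    (toBase m p j) '' comp t m p j = base t j := by
  rw [comp_eq, Set.image_preimage_eq _ (toBase m p j).surjective]

theorem isClosed_base (t j : ℕ) : IsClosed (base t j) := by
  have c0 := continuous_X 0
  have c1 := continuous_X 1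
  have c2 := continuous_X 2
  change IsClosed ({z | X z 0 ≤ X z 1} ∩ ({z | X z 1 ≤ 0} ∩
    ({z | (j : ℝ) ≤ t * (X z 2 - X z 0)} ∩ {z | t * (X z 2 - X z 0) ≤ (j : ℝ) + 1})))
  refine (isClosed_le c0 c1).inter ((isClosed_le c1 continuous_const).inter
    ((isClosed_le continuous_const ?_).inter (isClosed_le ?_ continuous_const)))
  · exact continuous_const.mul (c2.sub c0)
  · exact continuous_const.mul (c2.sub c0)

theorem convex_base (t j : ℕ) : Convex ℝ (base t j) := by
  rintro z ⟨h1, h2, h3, h4⟩ w ⟨k1, k2, k3, k4⟩ a b ha hb hab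
  have key : ∀ i, X (a • z + b • w) i = a * X z i + b * X w i := by
    intro i
    simp [X]; ring
  have hb' : b = 1 - a := by linarith
  change X (a • z + b • w) 0 ≤ X (a • z + b • w) 1 ∧ X (a • z + b • w) 1 ≤ 0 ∧
    (j : ℝ) ≤ t * (X (a • z + b • w) 2 - X (a • z + b • w) 0) ∧
    t * (X (a • z + b • w) 2 - X (a • z + b • w) 0) ≤ j + 1
  rw [key, key, key]
  have m1 := mul_le_mul_of_nonneg_left h1 ha
  have m2 := mul_le_mul_of_nonneg_left k1 hb
  have m3 := mul_le_mul_of_nonneg_left h2 ha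
  have m4 := mul_le_mul_of_nonneg_left k2 hb
  have m5 := mul_le_mul_of_nonneg_left h3 ha
  have m6 := mul_le_mul_of_nonneg_left k3 hb
  have m7 := mul_le_mul_of_nonneg_left h4 ha
  have m8 := mul_le_mul_of_nonneg_left k4 hb
  refine ⟨by linarith, by linarith, ?_, ?_⟩
  · have e : (j : ℝ) = a * j + b * j := by rw [← add_mul, hab, one_mul]
    rw [e]; linarith
  · have e : (j : ℝ) + 1 = a * (j + 1) + b * (j + 1) := by rw [← add_mul, hab, one_mul]
    rw [e]; linarith

theorem base_bounds {t j : ℕ} (ht : 0 < t) {z : Plane} (hz : z ∈ base t j) :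
    0 ≤ - X z 1 ∧ - X z 1 * (3 * t) ≤ j + 1 := by
  obtain ⟨h1, h2, h3, h4⟩ := hz
  have hs := X_sum z
  have htp : (0 : ℝ) < t := by exact_mod_cast ht
  refine ⟨by linarith, ?_⟩
  have h5 : - X z 1 * 3 ≤ X z 2 - X z 0 := by linarith
  have := mul_le_mul_of_nonneg_left h5 htp.le
  linarith

/-- The distance of two points of a base piece. -/
theorem base_dist {t j : ℕ} (ht : 0 < t) {z w : Plane} (hz : z ∈ base t j) (hw : w ∈ base t j) :
    3 * (t : ℝ) ^ 2 * dist z w ^ 2 ≤ 3 + (j + 1) ^ 2 := by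
  obtain ⟨b1, b2⟩ := base_bounds ht hz
  obtain ⟨c1, c2⟩ := base_bounds ht hw
  have htp : (0 : ℝ) < t := by exact_mod_cast ht
  obtain ⟨-, -, h3, h4⟩ := hz
  obtain ⟨-, -, k3, k4⟩ := hw
  rw [dist_ab]
  have e1 : (t * ((X z 2 - X z 0) - (X w 2 - X w 0))) ^ 2 ≤ 1 := by
    rw [sq_le_one_iff_abs_le_one, abs_le]
    constructor <;> linarith
  have e2 : ((3 * t) * (X z 1 - X w 1)) ^ 2 ≤ (j + 1) ^ 2 := by
    apply sq_le_sq'
    · have : 0 ≤ - X w 1 * (3 * t) := by positivity
      linarith
    · have : 0 ≤ - X z 1 * (3 * t) := by positivity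
      linarith
  nlinarith

/-- The corners of the base piece. -/
theorem base_corner {t j : ℕ} (ht : 0 < t) : ∃ z w, z ∈ base t j ∧ w ∈ base t j ∧
    3 * (t : ℝ) ^ 2 * dist z w ^ 2 = 3 + (j + 1) ^ 2 := by
  have htp : (0 : ℝ) < t := by exact_mod_cast ht
  have htn : (t : ℝ) ≠ 0 := htp.ne'
  have hX : ∀ a b : ℝ, X (Y ![(b - a) / 2, -b, (a + b) / 2]) = ![(b - a) / 2, -b, (a + b) / 2] := by
    intro a b
    apply X_Y
    simp
    ring
  have hj : (0 : ℝ) ≤ j := Nat.cast_nonneg _
  refine ⟨Y ![(((j + 1) / (3 * t) : ℝ) - (j + 1) / t) / 2, -((j + 1) / (3 * t)),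
      ((j + 1) / t + (j + 1) / (3 * t)) / 2],
    Y ![((0 : ℝ) - j / t) / 2, -0, (j / t + 0) / 2], ?_, ?_, ?_⟩
  · change X _ ∈ Bx t j
    rw [hX]
    refine ⟨?_, ?_, ?_, ?_⟩
    · simp
      apply le_of_eq
      field_simp
      ring
    · simp
      positivity
    · simp
      field_simp
      linarith
    · simp
      apply le_of_eq
      field_simp
      ring
  · change X _ ∈ Bx t j
    rw [hX]
    refine ⟨?_, ?_, ?_, ?_⟩
    · have hjt : (0 : ℝ) ≤ j / t := by positivity
      simp
      linarith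
    · simp
    · simp
      apply le_of_eq
      field_simp
      ring
    · simp
      field_simp
      linarith
  · rw [dist_ab, hX, hX]
    simp
    field_simp
    ring

theorem base_disk {t j : ℕ} (ht : 0 < t) : IsClosedDisk (base t j) := by
  have htp : (0 : ℝ) < t := by exact_mod_cast ht
  have htn : (t : ℝ) ≠ 0 := htp.ne'
  have hne : (interior (base t j)).Nonempty := by
    have hX : ∀ a b : ℝ,
        X (Y ![(b - a) / 2, -b, (a + b) / 2]) = ![(b - a) / 2, -b, (a + b) / 2] := by
      intro a b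
      apply X_Y
      simp
      ring
    refine ⟨Y ![((1 / (12 * t) : ℝ) - (j + 1 / 2) / t) / 2, -(1 / (12 * t)),
      ((j + 1 / 2) / t + 1 / (12 * t)) / 2], ?_⟩
    rw [mem_interior]
    refine ⟨{z | X z 0 < X z 1} ∩ ({z | X z 1 < 0} ∩ ({z | (j : ℝ) < t * (X z 2 - X z 0)} ∩
      {z | t * (X z 2 - X z 0) < (j : ℝ) + 1})), ?_, ?_, ?_⟩
    · rintro z ⟨h1, h2, h3, h4⟩
      exact ⟨le_of_lt h1, le_of_lt h2, le_of_lt h3, le_of_lt h4⟩
    · have c0 := continuous_X 0
      have c1 := continuous_X 1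
      have c2 := continuous_X 2
      refine (isOpen_lt c0 c1).inter ((isOpen_lt c1 continuous_const).inter
        ((isOpen_lt continuous_const ?_).inter (isOpen_lt ?_ continuous_const)))
      · exact continuous_const.mul (c2.sub c0)
      · exact continuous_const.mul (c2.sub c0)
    · have hj : (0 : ℝ) ≤ j := Nat.cast_nonneg _
      refine ⟨?_, ?_, ?_, ?_⟩
      · change X _ 0 < X _ 1
        rw [hX]
        simp
        field_simp
        linarith
      · change X _ 1 < 0
        rw [hX]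
        simp
        positivity
      · change (j : ℝ) < t * (X _ 2 - X _ 0)
        rw [hX]
        simp
        field_simp
        linarith
      · change t * (X _ 2 - X _ 0) < (j : ℝ) + 1
        rw [hX]
        simp
        field_simp
        linarith
  have hb : Bornology.IsBounded (base t j) := by
    rw [Metric.isBounded_iff]
    refine ⟨3 + (j + 1) ^ 2, ?_⟩
    intro z hz w hw
    have h := base_dist ht hz hw
    have ht1 : (1 : ℝ) ≤ t := by exact_mod_cast ht
    have hd : 0 ≤ dist z w := dist_nonneg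
    have h1 : dist z w ^ 2 ≤ 3 + (j + 1) ^ 2 := by
      have : (1 : ℝ) ≤ 3 * (t : ℝ) ^ 2 := by nlinarith
      nlinarith [sq_nonneg (dist z w)]
    by_contra hcon
    rw [not_le] at hcon
    have h2 : (1 : ℝ) < dist z w := by nlinarith [sq_nonneg ((j : ℝ) + 1)]
    nlinarith
  obtain ⟨h, -, h2, -⟩ := exists_homeomorph_image_interior_closure_frontier_eq_unitBall
    (convex_base t j) hne hb
  rw [(isClosed_base t j).closure_eq] at h2
  exact ⟨(h.image (base t j)).trans (Homeomorph.setCongr h2)⟩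

theorem comp_disk {t : ℕ} (ht : 0 < t) (m : L) (p : D) (j : ℕ) : IsClosedDisk (comp t m p j) := by
  obtain ⟨e⟩ := base_disk (j := j) ht
  refine ⟨(((toBase m p j).toHomeomorph.image (comp t m p j)).trans
    (Homeomorph.setCongr ?_)).trans e⟩
  exact toBase_image t m p j

theorem isClosed_comp (t : ℕ) (m : L) (p : D) (j : ℕ) : IsClosed (comp t m p j) := by
  rw [comp_eq]
  exact (isClosed_base t j).preimage (toBase m p j).continuous

/-- Components of different kinds are not congruent. -/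
theorem not_congruent {t : ℕ} (ht : 0 < t) {m m' : L} {p p' : D} {i j : ℕ} (g : Plane ≃ᵢ Plane)
    (h : g '' comp t m p i = comp t m' p' j) : j ≤ i := by
  obtain ⟨z, w, hz, hw, hd⟩ := base_corner (j := j) ht
  rw [← toBase_image t m' p' j, ← h] at hz hw
  obtain ⟨_, ⟨z1, hz1, rfl⟩, rfl⟩ := hz
  obtain ⟨_, ⟨w1, hw1, rfl⟩, rfl⟩ := hw
  rw [(toBase m' p' j).dist_eq, g.dist_eq] at hd
  have hz2 : toBase m p i z1 ∈ base t i := by rw [← toBase_image t m p i]; exact ⟨z1, hz1, rfl⟩
  have hw2 : toBase m p i w1 ∈ base t i := by rw [← toBase_image t m p i]; exact ⟨w1, hw1, rfl⟩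
  have h1 := base_dist ht hz2 hw2
  rw [(toBase m p i).dist_eq, hd] at h1
  by_contra hcon
  rw [not_le] at hcon
  have h2 : (i : ℝ) + 1 ≤ j := by exact_mod_cast hcon
  have hi : (0 : ℝ) ≤ i := Nat.cast_nonneg _
  nlinarith

theorem Bx_pos {t : ℕ} (ht : 0 < t) {j : ℕ} {x : Fin 3 → ℝ} (hx : x ∈ Bx t j) :
    0 ≤ x 2 - x 0 := by
  obtain ⟨-, -, h3, -⟩ := hx
  have htp : (0 : ℝ) < t := by exact_mod_cast ht
  have hj : (0 : ℝ) ≤ j := Nat.cast_nonneg _
  by_contra hcon
  rw [not_le] at hcon
  nlinarith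

theorem Bx_le_one {t : ℕ} (ht : 0 < t) {j : ℕ} (hj : j < t) {x : Fin 3 → ℝ} (hx : x ∈ Bx t j) :
    x 2 - x 0 ≤ 1 := by
  obtain ⟨-, -, -, h4⟩ := hx
  have htp : (0 : ℝ) < t := by exact_mod_cast ht
  have hj' : (j : ℝ) + 1 ≤ t := by exact_mod_cast hj
  by_contra hcon
  rw [not_le] at hcon
  nlinarith

/-- The components of a tile are disjoint. -/
theorem comp_disjoint {t : ℕ} (ht : 0 < t) (m : L) {p p' : D} {j j' : ℕ} (hj : j < t)
    (hj' : j' < t) {z : Plane} (h : z ∈ comp t m p j) (h' : z ∈ comp t m p' j') :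
    p = p' ∧ j = j' := by
  set x := X z - R m with hx
  have hxs : Z x := Z_sub (X_sum z) (Z_R m)
  have hs := act_sum p x hxs
  have hs' := act_sum p' x hxs
  have a0 := lam0 j
  have a1 := lam1 j
  have a2 := lam2 j
  have b0 := lam0 j'
  have b1 := lam1 j'
  have b2 := lam2 j'
  have hjr : (0 : ℝ) ≤ j := Nat.cast_nonneg _
  have hjr' : (0 : ℝ) ≤ j' := Nat.cast_nonneg _
  have e1 := Bx_pos ht h
  have e2 := Bx_le_one ht hj h
  have e1' := Bx_pos ht h'
  have e2' := Bx_le_one ht hj' h'
  obtain ⟨h1, h2, -, -⟩ := h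
  obtain ⟨k1, k2, -, -⟩ := h'
  simp only [Pi.sub_apply, ← hx] at h1 h2 k1 k2 e1 e2 e1' e2'
  change act p x 0 - R (lam j) 0 ≤ act p x 1 - R (lam j) 1 at h1
  change act p x 1 - R (lam j) 1 ≤ 0 at h2
  change act p' x 0 - R (lam j') 0 ≤ act p' x 1 - R (lam j') 1 at k1
  change act p' x 1 - R (lam j') 1 ≤ 0 at k2
  rw [a0, a1] at h1
  rw [a1] at h2
  rw [b0, b1] at k1
  rw [b1] at k2
  rw [a0, a2] at e1 e2
  rw [b0, b2] at e1' e2'
  have hpp : p = p' := by
    apply chamber_unique (x := x) <;> linarith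
  subst hpp
  refine ⟨rfl, ?_⟩
  have l1 : ((j : ℤ) : ℝ) < (j' : ℤ) + 1 := by push_cast; linarith
  have l2 : ((j' : ℤ) : ℝ) < (j : ℤ) + 1 := by push_cast; linarith
  have l1' : (j : ℤ) < j' + 1 := by exact_mod_cast l1
  have l2' : (j' : ℤ) < j + 1 := by exact_mod_cast l2
  omega

/-! ### Uniqueness at generic points -/

/-- A generic point. -/
def Gen (t : ℕ) (x : Fin 3 → ℝ) : Prop :=
  (∀ i k : Fin 3, i ≠ k → ∀ n : ℤ, t * (x i - x k) ≠ n) ∧ ∀ (i : Fin 3) (n : ℤ), x i ≠ n

theorem interior_line (c0 c1 d : ℝ) (h : c0 ≠ 0 ∨ c1 ≠ 0) :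
    interior {z : Plane | c0 * z 0 + c1 * z 1 = d} = ∅ := by
  rw [Set.eq_empty_iff_forall_notMem]
  intro z hz
  rw [mem_interior_iff_mem_nhds, Metric.mem_nhds_iff] at hz
  obtain ⟨ε, hε, hb⟩ := hz
  have hz0 : c0 * z 0 + c1 * z 1 = d := hb (Metric.mem_ball_self hε)
  have move : ∀ i : Fin 2, z + EuclideanSpace.single i (ε / 2) ∈ Metric.ball z ε := by
    intro i
    rw [Metric.mem_ball, dist_eq_norm]
    rw [add_sub_cancel_left, PiLp.norm_single, Real.norm_eq_abs]
    rw [abs_of_pos (by linarith)]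
    linarith
  rcases h with h | h
  · have h2 := hb (move 0)
    simp only [Set.mem_ofPred_eq, PiLp.add_apply, PiLp.single_apply] at h2
    simp at h2
    apply h
    have : c0 * (ε / 2) = 0 := by linarith
    rcases mul_eq_zero.1 this with h3 | h3
    · exact h3
    · linarith
  · have h2 := hb (move 1)
    simp only [Set.mem_ofPred_eq, PiLp.add_apply, PiLp.single_apply] at h2
    simp at h2
    apply h
    have : c1 * (ε / 2) = 0 := by linarith
    rcases mul_eq_zero.1 this with h3 | h3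
    · exact h3
    · linarith

theorem open_dense_compl (c0 c1 d : ℝ) (h : c0 ≠ 0 ∨ c1 ≠ 0) :
    IsOpen {z : Plane | c0 * z 0 + c1 * z 1 ≠ d} ∧ Dense {z : Plane | c0 * z 0 + c1 * z 1 ≠ d} := by
  constructor
  · apply isOpen_ne_fun
    · fun_prop
    · fun_prop
  · have := interior_eq_empty_iff_dense_compl.1 (interior_line c0 c1 d h)
    exact this

theorem dense_gen {t : ℕ} (ht : 0 < t) : Dense {z : Plane | Gen t (X z)} := by
  have htp : (0 : ℝ) < t := by exact_mod_cast ht
  have hal : ∀ i k : Fin 3, i ≠ k → al i - al k ≠ 0 := by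
    intro i k h
    fin_cases i <;> fin_cases k <;> simp [al] at h ⊢ <;> norm_num
  have hab : ∀ i : Fin 3, al i ≠ 0 ∨ be i ≠ 0 := by
    intro i
    fin_cases i
    · left; simp [al]
    · right; simp [be]
    · left; simp [al]
  have h1 : ∀ r : {ik : Fin 3 × Fin 3 // ik.1 ≠ ik.2} × ℤ,
      IsOpen {z : Plane | t * (X z r.1.1.1 - X z r.1.1.2) ≠ r.2} ∧
      Dense {z : Plane | t * (X z r.1.1.1 - X z r.1.1.2) ≠ r.2} := by
    rintro ⟨⟨⟨i, k⟩, hik⟩, n⟩
    have h := open_dense_compl (t * (al i - al k)) (t * (be i - be k)) n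
      (Or.inl (mul_ne_zero htp.ne' (hal i k hik)))
    have e : {z : Plane | t * (X z i - X z k) ≠ n} =
        {z : Plane | t * (al i - al k) * z 0 + t * (be i - be k) * z 1 ≠ n} := by
      ext z
      have : t * (X z i - X z k) = t * (al i - al k) * z 0 + t * (be i - be k) * z 1 := by
        simp only [X]; ring
      simp only [Set.mem_ofPred_eq, this]
    simp only [e]
    exact h
  have h2 : ∀ r : Fin 3 × ℤ, IsOpen {z : Plane | X z r.1 ≠ r.2} ∧
      Dense {z : Plane | X z r.1 ≠ r.2} := by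
    rintro ⟨i, n⟩
    exact open_dense_compl (al i) (be i) n (hab i)
  have hd : Dense (⋂ r : ({ik : Fin 3 × Fin 3 // ik.1 ≠ ik.2} × ℤ) ⊕ (Fin 3 × ℤ),
      Sum.elim (fun r => {z : Plane | t * (X z r.1.1.1 - X z r.1.1.2) ≠ r.2})
        (fun r => {z : Plane | X z r.1 ≠ r.2}) r) := by
    apply dense_iInter_of_isOpen
    · rintro (r | r)
      · exact (h1 r).1
      · exact (h2 r).1
    · rintro (r | r)
      · exact (h1 r).2
      · exact (h2 r).2
  apply hd.mono
  intro z hz
  rw [Set.mem_iInter] at hz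
  refine ⟨?_, ?_⟩
  · intro i k hik n
    exact hz (Sum.inl ⟨⟨(i, k), hik⟩, n⟩)
  · intro i n
    exact hz (Sum.inr (i, n))

theorem gen_act {t : ℕ} {x : Fin 3 → ℝ} (h : Gen t x) (p : D) : Gen t (act p x) := by
  have h2 : (sg p.2 : ℝ) = 1 ∨ (sg p.2 : ℝ) = -1 := by
    cases p.2 <;> simp [sg]
  constructor
  · intro i k hik n hn
    have hne : p.1 i ≠ p.1 k := fun e => hik (p.1.injective e)
    simp only [act] at hn
    rcases h2 with h2 | h2
    · rw [h2] at hn
      exact h.1 _ _ hne n (by linarith)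
    · rw [h2] at hn
      exact h.1 _ _ hne (-n) (by push_cast; linarith)
  · intro i n hn
    simp only [act] at hn
    rcases h2 with h2 | h2
    · rw [h2] at hn
      exact h.2 _ n (by linarith)
    · rw [h2] at hn
      exact h.2 _ (-n) (by push_cast; linarith)

theorem gen_sub {t : ℕ} {x : Fin 3 → ℝ} (h : Gen t x) (m : L) : Gen t (x - R m) := by
  constructor
  · intro i k hik n hn
    apply h.1 i k hik (n + t * (m.1 i - m.1 k))
    simp only [Pi.sub_apply, R] at hn
    push_cast
    linarith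
  · intro i n hn
    apply h.2 i (n + m.1 i)
    simp only [Pi.sub_apply, R] at hn
    push_cast
    linarith

/-- Differences of coordinates of a point whose image lies in a piece. -/
theorem diff_lt {t : ℕ} (ht : 0 < t) {x : Fin 3 → ℝ} (hx : Z x) (hg : Gen t x) {p : D} {j : ℕ}
    (hj : j < t) (h : act p x ∈ Bx t j) (i k : Fin 3) : x i - x k < 1 := by
  have hs := act_sum p x hx
  have h1 := Bx_le_one ht hj h
  obtain ⟨a1, a2, -, -⟩ := h
  set w := act p x with hw
  have key : ∀ a b : Fin 3, w a - w b ≤ 1 := by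
    intro a b
    fin_cases a <;> fin_cases b
    · change w 0 - w 0 ≤ 1; linarith
    · change w 0 - w 1 ≤ 1; linarith
    · change w 0 - w 2 ≤ 1; linarith
    · change w 1 - w 0 ≤ 1; linarith
    · change w 1 - w 1 ≤ 1; linarith
    · change w 1 - w 2 ≤ 1; linarith
    · change w 2 - w 0 ≤ 1; linarith
    · change w 2 - w 1 ≤ 1; linarith
    · change w 2 - w 2 ≤ 1; linarith
  have hle : x i - x k ≤ 1 := by
    have e : x = act (inv p) w := by rw [hw, inv_act]
    rw [e]
    simp only [act]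
    have h2 : (sg (inv p).2 : ℝ) = 1 ∨ (sg (inv p).2 : ℝ) = -1 := by
      cases (inv p).2 <;> simp [sg]
    rcases h2 with h2 | h2
    · rw [h2]
      have := key ((inv p).1 i) ((inv p).1 k)
      linarith
    · rw [h2]
      have := key ((inv p).1 k) ((inv p).1 i)
      linarith
  apply lt_of_le_of_ne hle
  intro he
  by_cases hik : i = k
  · subst hik; linarith
  · apply hg.1 i k hik t
    rw [he]; push_cast; ring

theorem unique_piece {t : ℕ} (ht : 0 < t) {x : Fin 3 → ℝ} (hx : Z x) (hg : Gen t x) {m m' : L}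
    {p p' : D} {j j' : ℕ} (hj : j < t) (hj' : j' < t) (h : act p (x - R m) ∈ Bx t j)
    (h' : act p' (x - R m') ∈ Bx t j') : m = m' ∧ p = p' ∧ j = j' := by
  have hZ := Z_sub hx (Z_R m)
  have hZ' := Z_sub hx (Z_R m')
  have d := diff_lt ht hZ (gen_sub hg m) hj h
  have d' := diff_lt ht hZ' (gen_sub hg m') hj' h'
  have hmm : m = m' := by
    have e1 : ∀ i k, m'.1 i - m'.1 k - (m.1 i - m.1 k) < 2 := by
      intro i k
      have a := d i k
      have b := d' k i
      simp only [Pi.sub_apply, R] at a b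
      have : ((m'.1 i - m'.1 k - (m.1 i - m.1 k) : ℤ) : ℝ) < 2 := by
        push_cast; linarith
      exact_mod_cast this
    have s1 := m.2
    have s2 := m'.2
    have e01 := e1 0 1
    have e10 := e1 1 0
    have e02 := e1 0 2
    have e20 := e1 2 0
    have e12 := e1 1 2
    have e21 := e1 2 1
    apply Subtype.ext
    funext i
    fin_cases i
    · change m.1 0 = m'.1 0; omega
    · change m.1 1 = m'.1 1; omega
    · change m.1 2 = m'.1 2; omega
  subst hmm
  have g := gen_act (gen_sub hg m) p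
  have g' := gen_act (gen_sub hg m) p'
  have s := act_sum p _ hZ
  have s' := act_sum p' _ hZ
  obtain ⟨h1, h2, h3, h4⟩ := h
  obtain ⟨k1, k2, k3, k4⟩ := h'
  have n1 : act p (x - R m) 0 ≠ act p (x - R m) 1 := by
    intro e
    apply g.1 0 1 (by decide) 0
    rw [e]; simp
  have n1' : act p' (x - R m) 0 ≠ act p' (x - R m) 1 := by
    intro e
    apply g'.1 0 1 (by decide) 0
    rw [e]; simp
  have n2 : act p (x - R m) 1 ≠ 0 := by
    have := g.2 1 0
    simpa using this
  have n2' : act p' (x - R m) 1 ≠ 0 := by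
    have := g'.2 1 0
    simpa using this
  have l1 := lt_of_le_of_ne h1 n1
  have l2 := lt_of_le_of_ne h2 n2
  have l1' := lt_of_le_of_ne k1 n1'
  have l2' := lt_of_le_of_ne k2 n2'
  have hpp : p = p' := by
    apply chamber_unique (x := x - R m) l1 l2 (by linarith) l1' l2' (by linarith)
  subst hpp
  refine ⟨rfl, rfl, ?_⟩
  have q1 := g.1 2 0 (by decide) (j + 1)
  have q2 := g.1 2 0 (by decide) (j' + 1)
  push_cast at q1 q2
  have r1 := lt_of_le_of_ne h4 q1
  have r2 := lt_of_le_of_ne k4 q2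
  have u1 : ((j : ℤ) : ℝ) < (j' : ℤ) + 1 := by push_cast; linarith
  have u2 : ((j' : ℤ) : ℝ) < (j : ℤ) + 1 := by push_cast; linarith
  have u1' : (j : ℤ) < j' + 1 := by exact_mod_cast u1
  have u2' : (j' : ℤ) < j + 1 := by exact_mod_cast u2
  omega

/-! ### The tiling -/

/-- The tile number `m`. -/
def tile (t : ℕ) (m : L) : Set Plane := ⋃ r : D × Fin t, comp t m r.1 r.2

theorem isClosed_tile (t : ℕ) (m : L) : IsClosed (tile t m) :=
  isClosed_iUnion_of_finite fun r => isClosed_comp t m r.1 r.2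

theorem mem_comp_iff (t : ℕ) (m : L) (p : D) (j : ℕ) (z : Plane) :
    z ∈ comp t m p j ↔
      act p (X z - R (addL m (actL (inv p) (lam j)))) ∈ Bx t j := by
  have e : act p (X z - R (addL m (actL (inv p) (lam j)))) = act p (X z - R m) - R (lam j) := by
    rw [R_addL, R_actL, ← sub_sub, act_sub, act_inv]
  rw [e]
  rfl

theorem cover {t : ℕ} (ht : 0 < t) : ⋃₀ Set.range (tile t) = Set.univ := by
  rw [Set.eq_univ_iff_forall]
  intro z
  obtain ⟨m, hm⟩ := voronoi (X z) (X_sum z)
  obtain ⟨p, h1, h2⟩ := chamber_exists (X z - R m)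
  set w := act p (X z - R m) with hw
  have hZ : Z (X z - R m) := Z_sub (X_sum z) (Z_R m)
  have hs : w 0 + w 1 + w 2 = 0 := act_sum p _ hZ
  have htp : (0 : ℝ) < t := by exact_mod_cast ht
  have hle : w 2 - w 0 ≤ 1 := by
    have h3 : (sg p.2 : ℝ) = 1 ∨ (sg p.2 : ℝ) = -1 := by
      cases p.2 <;> simp [sg]
    rw [hw]
    simp only [act]
    rcases h3 with h3 | h3
    · rw [h3]
      have := hm (p.1 2) (p.1 0)
      linarith
    · rw [h3]
      have := hm (p.1 0) (p.1 2)
      linarith
  have hge : 0 ≤ w 2 - w 0 := by linarith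
  -- the index of the piece
  obtain ⟨j, hj, hj1, hj2⟩ : ∃ j : ℕ, j < t ∧ (j : ℝ) ≤ t * (w 2 - w 0) ∧
      t * (w 2 - w 0) ≤ j + 1 := by
    rcases hle.lt_or_eq with hlt | heq
    · refine ⟨⌊t * (w 2 - w 0)⌋₊, ?_, Nat.floor_le (by positivity),
        (Nat.lt_floor_add_one _).le⟩
      rw [Nat.floor_lt (by positivity)]
      nlinarith
    · refine ⟨t - 1, by omega, ?_, ?_⟩
      · rw [heq, Nat.cast_sub ht]; push_cast; linarith
      · rw [heq, Nat.cast_sub ht]; push_cast; linarith
  refine ⟨tile t (subL m (actL (inv p) (lam j))), ⟨_, rfl⟩, ?_⟩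
  rw [tile, Set.mem_iUnion]
  refine ⟨(p, ⟨j, hj⟩), ?_⟩
  rw [mem_comp_iff]
  have e : addL (subL m (actL (inv p) (lam j))) (actL (inv p) (lam j)) = m := by
    apply R_inj
    rw [R_addL, R_subL, sub_add_cancel]
  change act p (X z - R (addL (subL m (actL (inv p) (lam j))) (actL (inv p) (lam j)))) ∈ Bx t j
  rw [e]
  exact ⟨h1, h2, hj1, hj2⟩

theorem tiles_disjoint {t : ℕ} (ht : 0 < t) {m m' : L} (h : m ≠ m') :
    Disjoint (interior (tile t m)) (interior (tile t m')) := by
  rw [Set.disjoint_iff_inter_eq_empty, ← interior_inter]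
  by_contra hne
  obtain ⟨z, hz, hg⟩ := (dense_gen ht).inter_open_nonempty _ isOpen_interior
    (Set.nonempty_iff_ne_empty.2 hne)
  have hz' := interior_subset hz
  obtain ⟨h1, h2⟩ := hz'
  rw [tile, Set.mem_iUnion] at h1 h2
  obtain ⟨⟨p, j⟩, h1⟩ := h1
  obtain ⟨⟨p', j'⟩, h2⟩ := h2
  rw [mem_comp_iff] at h1 h2
  obtain ⟨e1, e2, e3⟩ := unique_piece ht (X_sum z) hg j.2 j'.2 h1 h2
  simp only at e1 e2 e3
  subst e2
  rw [e3] at e1
  apply h
  apply R_inj
  have := congrArg R e1
  rw [R_addL, R_addL] at this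
  exact add_right_cancel this

/-! ### Symmetries -/

theorem mov_comp (t : ℕ) (q : D) (m0 n0 m : L) (p : D) (j : ℕ) :
    (mov q (R m0) (R n0) (Z_R _) (Z_R _)) ⁻¹'
      comp t (addL (actL q (subL m m0)) n0) p j = comp t m (mul p q) j := by
  ext z
  change act p (X (mov q (R m0) (R n0) (Z_R _) (Z_R _) z) - R (addL (actL q (subL m m0)) n0)) -
    R (lam j) ∈ Bx t j ↔ act (mul p q) (X z - R m) - R (lam j) ∈ Bx t j
  rw [X_mov, R_addL, R_actL, R_subL, ← act_act]
  have e : act q (X z - R m0) + R n0 - (act q (R m - R m0) + R n0) = act q (X z - R m) := by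
    rw [add_sub_add_right_eq_sub, ← act_sub]
    congr 1
    abel
  rw [e]

theorem mov_comp_image (t : ℕ) (q : D) (m0 n0 m : L) (p : D) (j : ℕ) :
    (mov q (R m0) (R n0) (Z_R _) (Z_R _)) '' comp t m (mul p q) j =
      comp t (addL (actL q (subL m m0)) n0) p j := by
  rw [← mov_comp t q m0 n0 m p j, Set.image_preimage_eq _ (IsometryEquiv.surjective _)]

theorem mov_tile (t : ℕ) (q : D) (m0 n0 m : L) :
    (mov q (R m0) (R n0) (Z_R _) (Z_R _)) '' tile t m =
      tile t (addL (actL q (subL m m0)) n0) := by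
  rw [tile, Set.image_iUnion, tile]
  apply Set.Subset.antisymm
  · apply Set.iUnion_subset
    rintro ⟨p, j⟩
    have h := mov_comp_image t q m0 n0 m (mul p (inv q)) j
    rw [mul_inv_mul] at h
    change (mov q (R m0) (R n0) (Z_R _) (Z_R _)) '' comp t m p j ⊆ _
    rw [h]
    exact Set.subset_iUnion
      (fun r : D × Fin t => comp t (addL (actL q (subL m m0)) n0) r.1 r.2) (mul p (inv q), j)
  · apply Set.iUnion_subset
    rintro ⟨p, j⟩
    change comp t (addL (actL q (subL m m0)) n0) p j ⊆ _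
    rw [← mov_comp_image t q m0 n0 m p j]
    exact Set.subset_iUnion (fun r : D × Fin t =>
      (mov q (R m0) (R n0) (Z_R _) (Z_R _)) '' comp t m r.1 r.2) (mul p q, j)

theorem symm_mov (t : ℕ) (q : D) (m0 n0 : L) :
    IsSymmetry (Set.range (tile t)) (mov q (R m0) (R n0) (Z_R _) (Z_R _)) := by
  ext T
  constructor
  · rintro ⟨_, ⟨m, rfl⟩, rfl⟩
    exact ⟨_, (mov_tile t q m0 n0 m).symm⟩
  · rintro ⟨m, rfl⟩
    refine ⟨tile t (addL (actL (inv q) (subL m n0)) m0), ⟨_, rfl⟩, ?_⟩
    change (mov q (R m0) (R n0) (Z_R _) (Z_R _)) '' tile t _ = tile t m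
    rw [mov_tile]
    congr 1
    apply R_inj
    rw [R_addL, R_actL, R_subL, R_addL, R_actL, R_subL, add_sub_cancel_right, act_inv,
      sub_add_cancel]

theorem classTiling {t : ℕ} (ht : 0 < t) : ClassTiling t (12 * t) (Set.range (tile t)) := by
  refine ⟨⟨?_, ?_, cover ht, ?_⟩, ?_, ?_⟩
  · exact Set.countable_range _
  · rintro _ ⟨m, rfl⟩
    exact isClosed_tile t m
  · rintro _ ⟨m, rfl⟩ _ ⟨m', rfl⟩ hne
    exact tiles_disjoint ht fun e => hne (by rw [e])
  · rintro _ ⟨m, rfl⟩ _ ⟨m', rfl⟩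
    refine ⟨mov (1, false) (R m) (R m') (Z_R _) (Z_R _), symm_mov t _ m m', ?_⟩
    rw [mov_tile]
    congr 1
    apply R_inj
    rw [R_addL, R_actL, R_subL, sub_self]
    funext i
    simp [act]
  · rintro _ ⟨m, rfl⟩
    have hcard : Fintype.card (Fin (12 * t)) = Fintype.card (D × Fin t) := by
      simp [Fintype.card_perm, Nat.factorial]
    let e : Fin (12 * t) ≃ D × Fin t := Fintype.equivOfCardEq hcard
    refine ⟨fun i => comp t m (e i).1 (e i).2, fun i => comp_disk ht m _ _, ?_, ?_,
      fun i => (e i).2, ?_, ?_⟩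
    · intro i j hij
      rw [Set.disjoint_left]
      intro z hz hz'
      obtain ⟨h1, h2⟩ := comp_disjoint ht m (e i).2.2 (e j).2.2 hz hz'
      exact hij (e.injective (Prod.ext h1 (Fin.ext h2)))
    · rw [tile]
      exact e.surjective.iUnion_comp (fun r : D × Fin t => comp t m r.1 r.2)
    · intro j
      exact ⟨e.symm ((1, false), j), by simp⟩
    · intro i j
      constructor
      · intro h
        refine ⟨mov (mul (inv (e j).1) (e i).1) (R m) (R m) (Z_R _) (Z_R _), symm_mov t _ m m,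
          ?_, ?_⟩
        · rw [mov_tile]
          congr 1
          apply R_inj
          rw [R_addL, R_actL, R_subL, sub_self]
          funext k
          simp [act]
        · have h1 := mov_comp_image t (mul (inv (e j).1) (e i).1) m m m (e j).1 (e i).2
          rw [mul_inv_mul'] at h1
          change _ '' comp t m (e i).1 (e i).2 = comp t m (e j).1 (e j).2
          rw [h1]
          have h' : (e i).2 = (e j).2 := h
          rw [h']
          congr 1
          apply R_inj
          rw [R_addL, R_actL, R_subL, sub_self]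
          funext k
          simp [act]
      · rintro ⟨g, -, -, hg⟩
        have hg' : g '' comp t m (e i).1 (e i).2 = comp t m (e j).1 (e j).2 := hg
        have h1 := not_congruent ht g hg'
        have h2 : g.symm '' comp t m (e j).1 (e j).2 = comp t m (e i).1 (e i).2 := by
          rw [← hg', Set.image_image]
          simp
        have h3 := not_congruent ht g.symm h2
        exact Fin.ext (le_antisymm h3 h1)

/-- The set of positive integers `t` for which there is a `t`-class `12 t`-component tiling of the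
plane is the set of all positive integers. -/
theorem result : {t : ℕ | 0 < t ∧ ∃ F : Set (Set Plane), ClassTiling t (12 * t) F} =
    {t : ℕ | 0 < t} := by
  ext t
  constructor
  · rintro ⟨h, -⟩
    exact h
  · intro h
    exact ⟨h, _, classTiling h⟩

end Pool.Agent.Results.MP_2d2d9d_co.TwelveT
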